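import Pool.Agent.N428.FM.Disj

/-!
# The ratio inequalities for the gamma-numbers fail for flag homology manifolds

For `r ≥ 4` the clique complex of the circular graph on `Z_M × {+, -}` in which `(a, s)` and `(b, t)` are
adjacent if the circular distance of `a` and `b` is `1, ..., 2r - 2`, or if it is `2r - 1` and `s = t`
(`M ≥ 6r - 2`), is a connected flag homology `(2r-1)`-manifold with `n = 2M` vertices and
`γ_i = (-4)^i C(r,i)` for `i ≥ 2`, so `γ_3 < 0 < γ_4`.  For `r ≥ 3` the disjoint union of two joins of cycles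
has `γ_i = -(-4)^i C(r,i)` for `i ≥ 2`, so `γ_2 < 0 < γ_3`.
-/

set_option autoImplicit false

namespace Pool.Agent.Results.MP_fc91b2_co.GammaRatiosFail

open Pool.Agent.N428.FM Pool.Agent.R580.CD

theorem rg_conn {M N : ℕ} (hN : 2 ≤ N) (hM : 3 * N + 1 ≤ M) : (rg M N).Connected := by
  have hstep : ∀ (k l : ℕ) (hk : k < M) (hl : l < M) (s t : Bool), (k = l + 1 ∨ l = k + 1) →
      (rg M N).Adj (toLex (⟨k, hk⟩, s)) (toLex (⟨l, hl⟩, t)) := by
    intro k l hk hl s t hkl
    show radj M N k l s t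
    refine ⟨by omega, Or.inl ⟨by omega, by omega, fun h => by omega⟩⟩
  have hall : ∀ (k : ℕ) (hk : k < M) (s : Bool),
      (rg M N).Reachable (toLex (⟨0, by omega⟩, true)) (toLex (⟨k, hk⟩, s)) := by
    intro k
    induction k with
    | zero =>
      intro hk s
      exact (hstep 0 1 hk (by omega) true true (Or.inr rfl)).reachable.trans
        (hstep 1 0 (by omega) hk true s (Or.inl rfl)).reachable
    | succ k ih =>
      intro hk s
      exact (ih (by omega) true).trans (hstep k (k + 1) (by omega) hk true s (Or.inr rfl)).reachable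
  have : Nonempty (Fin M ×ₗ Bool) := ⟨toLex (⟨0, by omega⟩, true)⟩
  refine SimpleGraph.Connected.mk ?_
  intro p q
  exact (hall (ofLex p).1.val (ofLex p).1.isLt (ofLex p).2).symm.trans
    (hall (ofLex q).1.val (ofLex q).1.isLt (ofLex q).2)

/-- For `v = γ`, the inequalities `ρ_1 ≥ ... ≥ ρ_r` fail for arbitrarily large `n` in the class of all flag
homology `(2r-1)`-manifolds (`r ≥ 3`) and in the class of the connected ones (`r ≥ 4`). -/
theorem result : (∀ r : ℕ, 3 ≤ r → ¬ GammaMonotone r) ∧ (∀ r : ℕ, 4 ≤ r → ¬ GammaMonotoneConnected r) := by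
  constructor
  · rintro r hr ⟨n₀, h⟩
    obtain ⟨V, i1, i2, G, hG, hc, hfp⟩ := exists_disj (r := r) (m := n₀ + 4) (by omega) (by omega)
    have h5 : ∀ j, 5 ≤ bal (n₀ + 4 + 8 * r - 4) r j := bal_ge (by omega) (by omega)
    have h1 := h (n₀ + 4 + 8 * r - 4) (by omega) (bal (n₀ + 4 + 8 * r - 4) r) (bal_sum _ (by omega))
      (bal_le _ _) V G hc hG _ _ (isGamma_of_Phi hfp)
      (isGamma_JJ (fun j => le_trans (by norm_num) (h5 j))) 2 (by omega) (by omega)
    have g2 : (0 : ℚ) < (gJ (bal (n₀ + 4 + 8 * r - 4) r) 2 : ℚ) := by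
      exact_mod_cast gJ_pos h5 (i := 2) (by omega)
    have g3 : (0 : ℚ) < (gJ (bal (n₀ + 4 + 8 * r - 4) r) (2 + 1) : ℚ) := by
      exact_mod_cast gJ_pos h5 (i := 3) (by omega)
    have c2 : 0 < r.choose 2 := Nat.choose_pos (by omega)
    have c3 : 0 < r.choose 3 := Nat.choose_pos (by omega)
    have k2 : gd r (n₀ + 4) 2 < 0 := by
      unfold gd
      simp only [show ¬ ((2 : ℕ) = 1) by norm_num, show ¬ ((2 : ℕ) = 0) by norm_num, if_false]
      have : (0 : ℤ) < (r.choose 2 : ℤ) := by exact_mod_cast c2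
      linarith
    have k3 : 0 < gd r (n₀ + 4) (2 + 1) := by
      unfold gd
      simp only [show ¬ ((2 + 1 : ℕ) = 1) by norm_num, show ¬ ((2 + 1 : ℕ) = 0) by norm_num, if_false]
      have : (0 : ℤ) < (r.choose (2 + 1) : ℤ) := by exact_mod_cast c3
      have e : (-4 : ℤ) ^ (2 + 1) = -64 := by norm_num
      rw [e]
      linarith
    have k2' : ((gd r (n₀ + 4) 2 : ℤ) : ℚ) < 0 := by exact_mod_cast k2
    have k3' : (0 : ℚ) < ((gd r (n₀ + 4) (2 + 1) : ℤ) : ℚ) := by exact_mod_cast k3
    have l2 := div_neg_of_neg_of_pos k2' g2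
    have l3 := div_pos k3' g3
    linarith
  · rintro r hr ⟨n₀, h⟩
    set M := 6 * r + n₀ with hMdef
    have hM : 3 * (2 * r - 1) + 1 ≤ M := by omega
    have hfp := fp_rg_gam (r := r) (M := M) (by omega) hM
    have hman : FlagManifold (2 * r) (rg M (2 * r - 1)) := by
      intro T hT hne F _ i
      rw [link_sphere hM hT hne F i]
      have : (i + T.card = 2 * r - 1 + 1) ↔ (i + T.card = 2 * r) := by omega
      simp only [this]
    have hcard : Fintype.card (Fin M ×ₗ Bool) = 2 * M := by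
      rw [show Fintype.card (Fin M ×ₗ Bool) = Fintype.card (Fin M × Bool) from rfl, Fintype.card_prod]
      simp [mul_comm]
    have h5 : ∀ j, 5 ≤ bal (2 * M) r j := bal_ge (by omega) (by omega)
    have h1 := h (2 * M) (by omega) (bal (2 * M) r) (bal_sum _ (by omega))
      (bal_le _ _) (Fin M ×ₗ Bool) (rg M (2 * r - 1)) hcard (rg_conn (by omega) hM) hman _ _
      (isGamma_of_Phi hfp.1) (isGamma_JJ (fun j => le_trans (by norm_num) (h5 j))) 3 (by omega) (by omega)
    have g3 : (0 : ℚ) < (gJ (bal (2 * M) r) 3 : ℚ) := by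
      exact_mod_cast gJ_pos h5 (i := 3) (by omega)
    have g4 : (0 : ℚ) < (gJ (bal (2 * M) r) (3 + 1) : ℚ) := by
      exact_mod_cast gJ_pos h5 (i := 4) (by omega)
    have c3 : 0 < r.choose 3 := Nat.choose_pos (by omega)
    have c4 : 0 < r.choose 4 := Nat.choose_pos (by omega)
    have k3 : gr r M 3 < 0 := by
      unfold gr
      simp only [show ¬ ((3 : ℕ) = 1) by norm_num, if_false]
      have : (0 : ℤ) < (r.choose 3 : ℤ) := by exact_mod_cast c3
      have e : (-4 : ℤ) ^ 3 = -64 := by norm_num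
      rw [e]
      linarith
    have k4 : 0 < gr r M (3 + 1) := by
      unfold gr
      simp only [show ¬ ((3 + 1 : ℕ) = 1) by norm_num, if_false]
      have : (0 : ℤ) < (r.choose (3 + 1) : ℤ) := by exact_mod_cast c4
      have e : (-4 : ℤ) ^ (3 + 1) = 256 := by norm_num
      rw [e]
      linarith
    have k3' : ((gr r M 3 : ℤ) : ℚ) < 0 := by exact_mod_cast k3
    have k4' : (0 : ℚ) < ((gr r M (3 + 1) : ℤ) : ℚ) := by exact_mod_cast k4
    have l3 := div_neg_of_neg_of_pos k3' g3
    have l4 := div_pos k4' g4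
    linarith

end Pool.Agent.Results.MP_fc91b2_co.GammaRatiosFail
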